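import Pool.Agent.W555.EQ.Stm

/-!
# EQ-END
-/

set_option autoImplicit false

namespace Pool.Agent.W120.EQ

open Pool.Agent.W555.EQ

/-- the set of classes in the frozen statement -/
def KS {V : Type} (G : SimpleGraph V) (q : V → Fin 2 → ℂ) : Set (Set (V → Fin 2 → ℂ)) :=
  {K | ∃ r : V → Fin 2 → ℂ, (∀ u v, G.Adj u v →
      ∑ k : Fin 2, (r u k - r v k) ^ 2 = ∑ k : Fin 2, (q u k - q v k) ^ 2) ∧
    K = {s | ∀ u v, ∑ k : Fin 2, (s u k - s v k) ^ 2 = ∑ k : Fin 2, (r u k - r v k) ^ 2}}

theorem KS_eq {V : Type} (G : SimpleGraph V) (q : V → Fin 2 → ℂ) :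
    KS G q = (fun D : V → V → ℂ => {s : V → Fin 2 → ℂ | ∀ u v, dd s u v = D u v}) ''
      Fib G (ds q) := by
  ext K
  constructor
  · rintro ⟨r, hr, rfl⟩
    exact ⟨fun u v => dd r u v, ⟨r, hr, rfl⟩, rfl⟩
  · rintro ⟨_, ⟨r, hr, rfl⟩, rfl⟩
    exact ⟨r, hr, rfl⟩

theorem KS_inj {V : Type} (G : SimpleGraph V) (l : Sym2 V → ℂ) :
    Set.InjOn (fun D : V → V → ℂ => {s : V → Fin 2 → ℂ | ∀ u v, dd s u v = D u v})
      (Fib G l) := by
  rintro _ ⟨r, hr, rfl⟩ _ ⟨r', hr', rfl⟩ h
  have h1 : r ∈ {s : V → Fin 2 → ℂ | ∀ u v, dd s u v = dd r u v} := fun _ _ => rfl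
  have h2 : r ∈ {s : V → Fin 2 → ℂ | ∀ u v, dd s u v = dd r' u v} := by
    have h3 : {s : V → Fin 2 → ℂ | ∀ u v, dd s u v = dd r u v} =
        {s : V → Fin 2 → ℂ | ∀ u v, dd s u v = dd r' u v} := h
    rw [← h3]
    exact h1
  funext u v
  exact h2 u v

theorem eq_end (hloc : StLoc) (haa : StAutA) (hab : StAutB) (hind : StInd) : StEnd := by
  intro V _ G hG p q hp hfin
  change (KS G q).Finite at hfin
  change (KS G q).encard ≤ (KS G p).encard
  rw [KS_eq] at hfin
  rw [KS_eq, KS_eq, (KS_inj G _).encard_image, (KS_inj G _).encard_image]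
  replace hfin : (Fib G (ds q)).Finite := hfin.of_finite_image (KS_inj G _)
  have hself : ∀ r : V → Fin 2 → ℂ, (fun u v => dd r u v) ∈ Fib G (ds r) :=
    fun r => ⟨r, fun _ _ _ => rfl, rfl⟩
  have hpne : (Fib G (ds p)).Nonempty := ⟨_, hself p⟩
  by_cases hq : ∃ u v, G.Adj u v ∧ dd q u v ≠ 0
  · obtain ⟨δ, hδ, hle⟩ := hloc V G hG.1 q hq hfin
    have h1 : AlgebraicIndependent ℚ (fun e : G.edgeSet => ds p e.1) := by
      refine hind V G (ds q) δ hδ (fun l hl => ?_) p hp
      have h2 := hle l hl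
      have h3 : 1 ≤ (Fib G (ds q)).encard := Set.one_le_encard_iff_nonempty.2 ⟨_, hself q⟩
      exact Set.one_le_encard_iff_nonempty.1 (h3.trans h2)
    obtain ⟨x', hx', hx2⟩ := haa G.edgeSet (fun e => ds q e.1) δ hδ
    obtain ⟨σ, hσ⟩ := hab G.edgeSet _ x' h1 hx'
    refine (hle (fun e => σ (ds p e)) (fun e he => ?_)).trans ?_
    · have := hx2 ⟨e, he⟩
      rw [← hσ ⟨e, he⟩] at this
      exact this
    · have hdd : ∀ (τ : ℂ ≃+* ℂ) (r : V → Fin 2 → ℂ) (u v : V),
          dd (fun x k => τ (r x k)) u v = τ (dd r u v) := by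
        intro τ r u v
        simp [dd, map_sum, map_pow, map_sub]
      have hsub : Fib G (fun e => σ (ds p e)) ⊆
          (fun (D : V → V → ℂ) (u v : V) => σ (D u v)) '' Fib G (ds p) := by
        rintro _ ⟨r, hr, rfl⟩
        refine ⟨fun u v => dd (fun x k => σ.symm (r x k)) u v,
          ⟨fun x k => σ.symm (r x k), fun u v huv => ?_, rfl⟩, ?_⟩
        · rw [hdd, hr u v huv]
          simp
        · funext u v
          simp only [hdd]
          simp
      exact (Set.encard_le_encard hsub).trans (Set.encard_image_le _ _)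
  · push Not at hq
    have h1 : Fib G (ds q) ⊆ {fun _ _ => 0} := by
      rintro _ ⟨r, hr, rfl⟩
      by_contra hne
      have h2 : ∃ u v, dd r u v ≠ 0 := by
        by_contra h3
        push Not at h3
        exact hne (by
          rw [Set.mem_singleton_iff]
          funext u v
          exact h3 u v)
      obtain ⟨u, v, huv⟩ := h2
      have hsc : ∀ (t : ℂ) (x y : V), dd (fun x k => t * r x k) x y = t ^ 2 * dd r x y := by
        intro t x y
        unfold dd
        rw [Finset.mul_sum]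
        refine Finset.sum_congr rfl fun k _ => ?_
        ring
      have h3 : ∀ n : ℕ, (fun x y => dd (fun x k => (n : ℂ) * r x k) x y) ∈ Fib G (ds q) := by
        intro n
        refine ⟨_, fun x y hxy => ?_, rfl⟩
        have h4 : dd r x y = 0 := (hr x y hxy).trans (hq x y hxy)
        have h5 : ds q s(x, y) = 0 := hq x y hxy
        rw [hsc, h4, h5, mul_zero]
      have h4 : Function.Injective
          (fun n : ℕ => (fun x y => dd (fun x k => (n : ℂ) * r x k) x y)) := by
        intro n m hnm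
        have h5 := congrFun (congrFun hnm u) v
        simp only [hsc] at h5
        have h6 := mul_right_cancel₀ huv h5
        have h7 : n ^ 2 = m ^ 2 := by exact_mod_cast h6
        exact Nat.pow_left_injective (by norm_num) h7
      exact Set.infinite_of_injective_forall_mem h4 h3 hfin
    calc (Fib G (ds q)).encard ≤ ({fun _ _ => 0} : Set (V → V → ℂ)).encard :=
          Set.encard_le_encard h1
      _ = 1 := Set.encard_singleton _
      _ ≤ _ := Set.one_le_encard_iff_nonempty.2 hpne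

end Pool.Agent.W120.EQ
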