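import Pool.Agent.W555.EQ.Stm

/-!
# EQ-IND
-/

set_option autoImplicit false

namespace Pool.Agent.W120.EQ

open Pool.Agent.W555.EQ MvPolynomial

theorem ind : StInd := by
  classical
  intro V _ G c δ hδ hne p hp
  rw [algebraicIndependent_iff]
  intro R hR
  let a : G.edgeSet → V := fun e => (Quot.out e.1).1
  let b : G.edgeSet → V := fun e => (Quot.out e.1).2
  have hab : ∀ e : G.edgeSet, s(a e, b e) = e.1 := fun e => Quot.out_eq e.1
  let D : G.edgeSet → MvPolynomial (V × Fin 2) ℚ :=
    fun e => ∑ k : Fin 2, (X (a e, k) - X (b e, k)) ^ 2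
  have hD : ∀ (r : V → Fin 2 → ℂ) (e : G.edgeSet),
      aeval (fun x : V × Fin 2 => r x.1 x.2) (D e) = ds r e.1 := by
    intro r e
    have h1 : ds r e.1 = dd r (a e) (b e) := by
      rw [← hab e]
      rfl
    rw [h1]
    simp [D, dd]
  have h1 : aeval D R = 0 := by
    rw [algebraicIndependent_iff] at hp
    apply hp
    have hf : (fun i => (aeval (fun x : V × Fin 2 => p x.1 x.2)) (D i)) = fun e => ds p e.1 :=
      funext fun e => hD p e
    rw [← hR, comp_aeval_apply, hf]
  have h2 : ∀ r : V → Fin 2 → ℂ, aeval (fun e : G.edgeSet => ds r e.1) R = 0 := by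
    intro r
    have h3 : aeval (fun x : V × Fin 2 => r x.1 x.2) (aeval D R) = 0 := by
      rw [h1, map_zero]
    have hf : (fun i => (aeval (fun x : V × Fin 2 => r x.1 x.2)) (D i)) = fun e => ds r e.1 :=
      funext fun e => hD r e
    rw [comp_aeval_apply, hf] at h3
    exact h3
  have h3 : ∀ y : G.edgeSet → ℂ, (∀ e, ‖y e - c e.1‖ < δ) → aeval y R = 0 := by
    intro y hy
    let l : Sym2 V → ℂ := fun e => if h : e ∈ G.edgeSet then y ⟨e, h⟩ else 0
    have hl : ∀ e : G.edgeSet, l e.1 = y e := by
      intro e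
      simp only [l]
      rw [dif_pos e.2]
    obtain ⟨_, r, hr, _⟩ := hne l (fun e he => by
      have := hy ⟨e, he⟩
      rw [← hl ⟨e, he⟩] at this
      exact this)
    have hf : y = fun e : G.edgeSet => ds r e.1 := by
      funext e
      rw [← hl e, ← hab e]
      exact (hr (a e) (b e) (by
        have := e.2
        rw [← hab e] at this
        exact this)).symm
    rw [hf]
    exact h2 r
  have h4 : map (algebraMap ℚ ℂ) R = 0 := by
    apply funext_set (fun e : G.edgeSet => Metric.ball (c e.1) δ)
    · intro e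
      exact infinite_of_mem_nhds (c e.1) (Metric.ball_mem_nhds _ hδ)
    · intro y hy
      rw [map_zero, ← h3 y (fun e => by
        have := hy e (Set.mem_univ _)
        rwa [Metric.mem_ball, dist_eq_norm] at this)]
      rw [eval_map, aeval_def]
  exact map_injective _ (algebraMap ℚ ℂ).injective (by rw [h4, map_zero])

end Pool.Agent.W120.EQ
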