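import Pool.Agent.W555.EQ.Stm

/-!
# EQ-PIN
-/

set_option autoImplicit false

namespace Pool.Agent.W120.EQ

open Pool.Agent.W555.EQ

theorem sq_fin (A : ℂ) : {c : ℂ | c ^ 2 = A}.Finite := by
  obtain ⟨z, hz⟩ := IsAlgClosed.exists_eq_mul_self A
  refine Set.Finite.subset (Set.toFinite {z, -z}) ?_
  intro c hc
  have h1 : c ^ 2 = z ^ 2 := by
    rw [show c ^ 2 = A from hc, hz]; ring
  rcases sq_eq_sq_iff_eq_or_eq_neg.1 h1 with h | h
  · exact Or.inl h
  · exact Or.inr h

theorem pin : StPin := by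
  intro V u v
  constructor
  · intro r hr
    obtain ⟨a, ha⟩ := IsAlgClosed.exists_eq_mul_self (dd r u v)
    have ha0 : a ≠ 0 := by
      rintro rfl
      exact hr (by rw [ha]; ring)
    have h1 : (r v 0 - r u 0) ^ 2 + (r v 1 - r u 1) ^ 2 = a * a := by
      rw [← ha]
      unfold dd
      rw [Fin.sum_univ_two]
      ring
    refine ⟨fun x => ![((r v 0 - r u 0) * (r x 0 - r u 0) + (r v 1 - r u 1) * (r x 1 - r u 1)) / a,
      (-(r v 1 - r u 1) * (r x 0 - r u 0) + (r v 0 - r u 0) * (r x 1 - r u 1)) / a], ⟨?_, ?_⟩, ?_⟩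
    · intro k
      fin_cases k <;> simp
    · simp only [Matrix.cons_val_one, Matrix.cons_val_fin_one]
      rw [div_eq_zero_iff]
      left
      ring
    · intro x y
      unfold dd
      rw [Fin.sum_univ_two, Fin.sum_univ_two]
      simp only [Matrix.cons_val_zero, Matrix.cons_val_one, Matrix.cons_val_fin_one]
      field_simp
      linear_combination ((r x 0 - r y 0) ^ 2 + (r x 1 - r y 1) ^ 2) * h1
  · intro _ r hr
    let A := dd r u v
    let S0 : V → Set ℂ := fun x => (fun c => (dd r u x + A - dd r v x) / (2 * c)) '' {c | c ^ 2 = A}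
    let S1 : V → Set ℂ := fun x => ⋃ t ∈ S0 x, {s | s ^ 2 = dd r u x - t ^ 2}
    have hS0 : ∀ x, (S0 x).Finite := fun x => (sq_fin A).image _
    have hS1 : ∀ x, (S1 x).Finite := fun x => (hS0 x).biUnion fun t _ => sq_fin _
    refine Set.Finite.subset (Set.Finite.pi' (fun x : V => Set.Finite.pi'
      (fun k : Fin 2 => show (if k = 0 then S0 x else S1 x).Finite by
        split_ifs
        · exact hS0 x
        · exact hS1 x))) ?_
    rintro r' ⟨⟨hu, hv⟩, hd⟩ x
    have hc : (r' v 0) ^ 2 = A := by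
      have := hd u v
      unfold dd at this
      rw [Fin.sum_univ_two, hu 0, hu 1, hv] at this
      change r' v 0 ^ 2 = dd r u v
      unfold dd
      rw [← this]
      ring
    have hc0 : r' v 0 ≠ 0 := by
      intro h
      rw [h] at hc
      exact hr (by change dd r u v = 0; rw [show dd r u v = A from rfl, ← hc]; ring)
    have h1 : r' x 0 ^ 2 + r' x 1 ^ 2 = dd r u x := by
      rw [← hd u x]
      unfold dd
      rw [Fin.sum_univ_two, hu 0, hu 1]
      ring
    have h2 : (r' v 0 - r' x 0) ^ 2 + r' x 1 ^ 2 = dd r v x := by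
      rw [← hd v x]
      unfold dd
      rw [Fin.sum_univ_two, hv]
      ring
    have h3 : r' x 0 ∈ S0 x := by
      refine ⟨r' v 0, hc, ?_⟩
      simp only
      rw [div_eq_iff (mul_ne_zero two_ne_zero hc0), ← h1, ← h2, ← hc]
      ring
    intro k
    fin_cases k
    · simp only [Fin.zero_eta, if_true]
      exact h3
    · simp only [Fin.mk_one, Fin.isValue, one_ne_zero, if_false]
      refine Set.mem_biUnion h3 ?_
      change r' x 1 ^ 2 = dd r u x - r' x 0 ^ 2
      rw [← h1]
      ring

end Pool.Agent.W120.EQ
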